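import Mathlib
import Pool.Agent.W711.KC.Final

/-!
# A partially hyperbolic biholomorphism of a compact Kähler threefold with non-holomorphic center

The manifold is `M = (ℍ × ℂ²) / (Γ ⋉ O)`, where `O` is a maximal order of the indefinite rational
quaternion algebra `B` of discriminant six, `Γ` is a torsion free subgroup of finite index of the
group of its units of norm one, and `α ∈ O ⊆ M₂(ℝ)` translates the fibre over `τ` by `α (τ, 1)ᵗ`.
It is the total space of a family of complex tori with quaternionic multiplication over a compact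
Riemann surface. The form with potential `((Im z)² + (Im w)²) / Im τ - log (Im τ)` is a Kähler metric
on `M`. A unit `ε` of a real quadratic subfield of `B` acts from the other side on the fibres, with
derivative `diag (ε, ε⁻¹)`, and this is a partially hyperbolic biholomorphism of `M`. Its center
distribution is the horizontal distribution of the flat connection (the leaves are the locally
constant real combinations of the periods), spanned by `(1, Im z / Im τ, Im w / Im τ)`: it is real
analytic, but not holomorphic.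
-/

set_option autoImplicit false

open scoped Manifold ContDiff Topology
open Set

namespace Pool.Agent.Results.MP_4c19c5_an.BettiCenter

/-- The model space `ℂ³`. -/
abbrev C3 : Type := ℂ × ℂ × ℂ

/-- The model of the complex manifolds of dimension three. -/
noncomputable abbrev II : ModelWithCorners ℂ C3 C3 := 𝓘(ℂ, C3)

/-- A complex manifold of dimension three: the coordinate changes between its charts, with values
in `ℂ³`, are holomorphic. -/
structure Threefold where
  /-- the points -/
  pt : Type
  /-- the topology -/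
  top : TopologicalSpace pt
  /-- the charts -/
  charts : ChartedSpace C3 pt
  /-- the coordinate changes are holomorphic -/
  holo : IsManifold II ω pt

namespace Threefold

variable (M : Threefold)

instance : TopologicalSpace M.pt := M.top

instance : ChartedSpace C3 M.pt := M.charts

instance : IsManifold II ω M.pt := M.holo

instance : IsManifold II 1 M.pt := IsManifold.of_le (n := ω) le_top

/-- A biholomorphism of `M`. -/
abbrev Biholomorphism : Type := Diffeomorph II II M.pt M.pt ω

/-- The derivative of `f` at `x`. As everywhere in Mathlib, the tangent space at a point is the model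
space `ℂ³`, through the preferred chart at the point. -/
noncomputable def D (f : M.pt → M.pt) (x : M.pt) : C3 →ₗ[ℂ] C3 := (mfderiv II II f x).toLinearMap

/-- The tangent vector of the vector field `V` at `x`, as a point of the tangent bundle. -/
def vec (V : M.pt → C3) (x : M.pt) : TangentBundle II M.pt := ⟨x, V x⟩

/-- A field of complex subspaces of the tangent spaces is a continuous subbundle: near every point
it has a basis of continuous vector fields. -/
def IsContinuousSubbundle (F : M.pt → Submodule ℂ C3) : Prop :=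
  ∀ x₀ : M.pt, ∃ U : Set M.pt, IsOpen U ∧ x₀ ∈ U ∧ ∃ (k : ℕ) (V : Fin k → M.pt → C3),
    (∀ i, ContinuousOn (M.vec (V i)) U) ∧
      ∀ x ∈ U, LinearIndependent ℂ (fun i => V i x) ∧ F x = Submodule.span ℂ (range fun i => V i x)

/-- A field of complex subspaces of the tangent spaces is a holomorphic subbundle: near every point
it is spanned by holomorphic vector fields. -/
def IsHolomorphicSubbundle (F : M.pt → Submodule ℂ C3) : Prop :=
  ∀ x₀ : M.pt, ∃ U : Set M.pt, IsOpen U ∧ x₀ ∈ U ∧ ∃ (k : ℕ) (V : Fin k → M.pt → C3),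
    (∀ i, MDifferentiableOn II II.tangent (M.vec (V i)) U) ∧
      ∀ x ∈ U, F x = Submodule.span ℂ (range fun i => V i x)

end Threefold

/-- The Levi form of `φ` at `z` in the direction `v`: `D²φ(z)(v, v) + D²φ(z)(iv, iv)`, that is
`4 ∑ (∂²φ / ∂z_j ∂z̄_k) v_j v̄_k`. -/
noncomputable def leviForm (φ : C3 → ℝ) (z v : C3) : ℝ :=
  fderiv ℝ (fun w => fderiv ℝ φ w v) z v +
    fderiv ℝ (fun w => fderiv ℝ φ w (Complex.I • v)) z (Complex.I • v)

namespace Threefold

variable (M : Threefold)

/-- The function `φ` on `M` in the preferred chart at `x`. -/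
noncomputable def read (φ : M.pt → ℝ) (x : M.pt) : C3 → ℝ := φ ∘ (chartAt C3 x).symm

/-- `g`, which gives the squared lengths of the tangent vectors, is a Kähler metric: it is positive
and locally the Levi form of a smooth function `φ` (a Kähler potential). -/
def IsKahlerMetric (g : M.pt → C3 → ℝ) : Prop :=
  (∀ x v, v ≠ 0 → 0 < g x v) ∧ ∀ x₀ : M.pt, ∃ U : Set M.pt, IsOpen U ∧ x₀ ∈ U ∧
    ∃ φ : M.pt → ℝ, ∀ x ∈ U, ContDiffAt ℝ ∞ (M.read φ x) (chartAt C3 x x) ∧
      ∀ v, g x v = leviForm (M.read φ x) (chartAt C3 x x) v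

/-- `TM = Es ⊕ Ec ⊕ Eu` is a partially hyperbolic splitting of `f` with respect to the metric with
squared lengths `g`: the three subbundles are nonzero, continuous and invariant, and for some `N ≥ 1`
and all unit vectors `vs ∈ Es`, `vc ∈ Ec`, `vu ∈ Eu` at the same point,
`‖Df^N vs‖ < min (1, ‖Df^N vc‖)` and `‖Df^N vu‖ > max (1, ‖Df^N vc‖)` (here with squares). -/
structure IsPartiallyHyperbolic (g : M.pt → C3 → ℝ) (f : M.pt → M.pt)
    (Es Ec Eu : M.pt → Submodule ℂ C3) : Prop where
  nonzero : ∀ x, Es x ≠ ⊥ ∧ Ec x ≠ ⊥ ∧ Eu x ≠ ⊥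
  splitting : ∀ x v, ∃! w : C3 × C3 × C3,
    w.1 ∈ Es x ∧ w.2.1 ∈ Ec x ∧ w.2.2 ∈ Eu x ∧ w.1 + w.2.1 + w.2.2 = v
  continuous : M.IsContinuousSubbundle Es ∧ M.IsContinuousSubbundle Ec ∧ M.IsContinuousSubbundle Eu
  invariant : ∀ x, (Es x).map (M.D f x) = Es (f x) ∧ (Ec x).map (M.D f x) = Ec (f x) ∧
    (Eu x).map (M.D f x) = Eu (f x)
  dominated : ∃ N : ℕ, 1 ≤ N ∧ ∀ x, ∀ vs ∈ Es x, ∀ vc ∈ Ec x, ∀ vu ∈ Eu x,
    g x vs = 1 → g x vc = 1 → g x vu = 1 →
      g (f^[N] x) (M.D f^[N] x vs) < min 1 (g (f^[N] x) (M.D f^[N] x vc)) ∧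
      max 1 (g (f^[N] x) (M.D f^[N] x vc)) < g (f^[N] x) (M.D f^[N] x vu)

end Threefold

/-- The threefold of the example. -/
noncomputable def example₀ : Threefold :=
  ⟨W711.KC.QQ W711.KC.GG, inferInstance, inferInstance, inferInstance⟩

/-- There are a compact connected complex manifold `M` of dimension three with a Kähler metric, a
biholomorphism `f` of `M` and a partially hyperbolic splitting of `f` whose center distribution is
not holomorphic. -/
theorem result : ∃ M : Threefold, CompactSpace M.pt ∧ T2Space M.pt ∧ ConnectedSpace M.pt ∧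
    SecondCountableTopology M.pt ∧
    ∃ (g : M.pt → C3 → ℝ) (f : M.Biholomorphism) (Es Ec Eu : M.pt → Submodule ℂ C3),
      M.IsKahlerMetric g ∧ M.IsPartiallyHyperbolic g f Es Ec Eu ∧
        ¬ M.IsHolomorphicSubbundle Ec := by
  refine ⟨example₀, W711.KC.compact_GG, ?_, W711.KC.connected_GG, ?_, W711.KC.gQ, W711.KC.fdiff,
    W711.KC.EsQ, W711.KC.EcQ, W711.KC.EuQ, W711.KC.isKahler, ?_, W711.KC.not_holomorphic⟩
  · exact (inferInstance : T2Space (W711.KC.QQ W711.KC.GG))
  · have := W711.KC.compact_GG
    exact ChartedSpace.secondCountable_of_sigmaCompact C3 (W711.KC.QQ W711.KC.GG)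
  · have h := W711.KC.partiallyHyperbolic
    refine ⟨h.ne_bot, fun x v => ?_, h.continuous, h.invariant, h.dominated⟩
    obtain ⟨w, hw, hw'⟩ := h.splitting x v
    refine ⟨(w.1.1, w.2.1.1, w.2.2.1), ⟨w.1.2, w.2.1.2, w.2.2.2, hw⟩, ?_⟩
    rintro ⟨a, b, c⟩ ⟨ha, hb, hc, habc⟩
    have := hw' (⟨a, ha⟩, ⟨b, hb⟩, ⟨c, hc⟩) habc
    rw [← this]

end Pool.Agent.Results.MP_4c19c5_an.BettiCenter
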